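import Pool.Agent.Helper77.OF4.St

/-! # Project OF4, module P1: merging two cycles of a permutation -/

set_option autoImplicit false

namespace Pool.Agent.Helper36.OF4.P1

open Equiv Equiv.Perm Pool.Agent.Helper35.PM Pool.Agent.Helper77.HY Pool.Agent.Helper77.OF4

theorem mp_eq {D : Type} [Finite D] (f : Perm D) (d : D) :
    Function.minimalPeriod f d = ({e | f.SameCycle d e} : Set D).ncard := by
  classical
  have : Fintype D := Fintype.ofFinite D
  have h1 : Function.minimalPeriod (f • ·) d
      = Nat.card (MulAction.orbit (Subgroup.zpowers f) d) := by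
    have : Fintype (MulAction.orbit (Subgroup.zpowers f) d) := Fintype.ofFinite _
    rw [MulAction.minimalPeriod_eq_card, Nat.card_eq_fintype_card]
  have h2 : (MulAction.orbit (Subgroup.zpowers f) d) = {e | f.SameCycle d e} := by
    ext e
    constructor
    · rintro ⟨⟨g, hg⟩, rfl⟩
      obtain ⟨k, rfl⟩ := Subgroup.mem_zpowers_iff.1 hg
      exact ⟨k, rfl⟩
    · rintro ⟨k, hk⟩
      exact ⟨⟨f ^ k, Subgroup.mem_zpowers_iff.2 ⟨k, rfl⟩⟩, hk⟩
  rw [h2, Nat.card_coe_set_eq] at h1
  exact h1

theorem main : StP1 := by
  classical
  intro D _ _ φ p q O hpq hO d hd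
  have hψ : ∀ e e', φ.SameCycle e e' → (φ * swap p q).SameCycle e e' :=
    fun e e' h => SameCycle.mul_swap hpq h
  have hPQ : (φ * swap p q).SameCycle p q := sameCycle_mul_swap hpq
  have ha : (φ * swap p q) p = φ q := by rw [Perm.mul_apply, swap_apply_left]
  have hb : (φ * swap p q) q = φ p := by rw [Perm.mul_apply, swap_apply_right]
  have ho : ∀ d, d ≠ p → d ≠ q → (φ * swap p q) d = φ d := fun d h1 h2 => by
    rw [Perm.mul_apply, swap_apply_of_ne_of_ne h1 h2]
  by_cases hc : φ.SameCycle p d ∨ φ.SameCycle q d
  · -- the merged cycle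
    let S : Set D := {e | φ.SameCycle p e} ∪ {e | φ.SameCycle q e}
    have hS : ∀ e ∈ S, (φ * swap p q) e ∈ S := by
      intro e he
      by_cases h1 : e = p
      · rw [h1, ha]
        right
        exact sameCycle_apply_right.2 (SameCycle.refl _ _)
      by_cases h2 : e = q
      · rw [h2, hb]
        left
        exact sameCycle_apply_right.2 (SameCycle.refl _ _)
      rw [ho e h1 h2]
      rcases he with he | he
      · left
        exact sameCycle_apply_right.2 he
      · right
        exact sameCycle_apply_right.2 he
    have hpd : (φ * swap p q).SameCycle p d := by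
      rcases hc with hc | hc
      · exact hψ _ _ hc
      · exact hPQ.trans (hψ _ _ hc)
    have hset : {e | (φ * swap p q).SameCycle d e} = S := by
      ext e
      constructor
      · intro he
        obtain ⟨k, hk⟩ := SameCycle.exists_nat_pow_eq he
        have hk' : ∀ n : ℕ, ((φ * swap p q) ^ n) d ∈ S := by
          intro n
          induction n with
          | zero => exact hc
          | succ n ih =>
            rw [pow_succ', Perm.mul_apply]
            exact hS _ ih
        rw [← hk]
        exact hk' k
      · rintro (he | he)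
        · exact hpd.symm.trans (hψ _ _ he)
        · exact hpd.symm.trans (hPQ.trans (hψ _ _ he))
    have hdisj : Disjoint ({e | φ.SameCycle p e} : Set D) {e | φ.SameCycle q e} := by
      rw [Set.disjoint_left]
      intro e h1 h2
      exact hpq (SameCycle.trans h1 (SameCycle.symm h2))
    rw [mp_eq, hset, Set.ncard_union_eq hdisj (Set.toFinite _) (Set.toFinite _), ← mp_eq,
      ← mp_eq] at hd
    rcases Nat.even_or_odd (Function.minimalPeriod φ p) with h1 | h1
    · have h2 : Odd (Function.minimalPeriod φ q) := by
        by_contra h2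
        rw [Nat.not_odd_iff_even] at h2
        exact (Nat.not_even_iff_odd.2 hd) (h1.add h2)
      obtain ⟨o, ho1, ho2⟩ := hO q h2
      exact ⟨o, ho1, (hψ _ _ ho2).trans (hPQ.symm.trans hpd)⟩
    · obtain ⟨o, ho1, ho2⟩ := hO p h1
      exact ⟨o, ho1, (hψ _ _ ho2).trans hpd⟩
  · rw [not_or] at hc
    have hit : ∀ n : ℕ, ((φ * swap p q))^[n] d = (φ)^[n] d ∧ φ.SameCycle d ((φ)^[n] d) := by
      intro n
      induction n with
      | zero => exact ⟨rfl, SameCycle.refl _ _⟩
      | succ n ih =>
        rw [Function.iterate_succ_apply', Function.iterate_succ_apply', ih.1]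
        refine ⟨ho _ ?_ ?_, sameCycle_apply_right.2 ih.2⟩
        · intro h
          rw [h] at ih
          exact hc.1 ih.2.symm
        · intro h
          rw [h] at ih
          exact hc.2 ih.2.symm
    have hmp : Function.minimalPeriod (φ * swap p q) d = Function.minimalPeriod φ d := by
      rw [Function.minimalPeriod_eq_minimalPeriod_iff]
      intro n
      unfold Function.IsPeriodicPt Function.IsFixedPt
      rw [(hit n).1]
    rw [hmp] at hd
    obtain ⟨o, ho1, ho2⟩ := hO d hd
    exact ⟨o, ho1, hψ _ _ ho2⟩

end Pool.Agent.Helper36.OF4.P1
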